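import Pool.Agent.Helper481.RHRefl

/-!
The lower bound `c_i(K) ≥ 1 + 2 κ_{d-1} / κ_d` for the reflection hull ratio of every convex
body `K` in `d`-dimensional Euclidean space and every `0 ≤ i ≤ d - 1`.

`kappa n` is the volume of the unit ball of `ℝ^n`, `ratios i K` is the set of all quotients
`vol (conv (K ∪ σ_L K)) / vol K` with `L` an `i`-dimensional affine subspace meeting `K`
(`σ_L` is Mathlib's reflection in the affine subspace `L`), and `cRatio i K` is its supremum.
-/

set_option autoImplicit false
open MeasureTheory Set Module Metric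
open scoped ENNReal

namespace Pool.Agent.Results.MP_036dc9_gt.ReflectionHull

open Pool.Agent.Helper481.RH

/-- `κ_n`, the volume of the unit ball of `ℝ^n` -/
noncomputable def kappa (n : ℕ) : ℝ :=
  (volume (closedBall (0 : EuclideanSpace ℝ (Fin n)) 1)).toReal

section defs

variable {E : Type*} [NormedAddCommGroup E] [InnerProductSpace ℝ E] [FiniteDimensional ℝ E]

/-- the reflection `σ_L` in an affine subspace `L` -/
noncomputable def sigma (L : AffineSubspace ℝ E) [Nonempty L] (x : E) : E :=
  EuclideanGeometry.reflection L x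

/-- the reflection hull `conv (K ∪ σ_L K)` -/
noncomputable def reflHull (L : AffineSubspace ℝ E) [Nonempty L] (K : Set E) : Set E :=
  convexHull ℝ (K ∪ sigma L '' K)

/-- Sanity check: `σ_L(x) = 2 π_L(x) - x`. -/
lemma sigma_eq (L : AffineSubspace ℝ E) [Nonempty L] (x : E) :
    sigma L x = (2:ℝ) • (EuclideanGeometry.orthogonalProjection L x : E) - x := by
  rw [sigma, EuclideanGeometry.reflection_apply', vsub_eq_sub, vadd_eq_add, two_smul]
  abel

/-- the quotients `vol (conv (K ∪ σ_L K)) / vol K`, where `L` runs through the `i`-dimensional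
affine subspaces meeting `K` -/
def ratios [MeasurableSpace E] [BorelSpace E] (i : ℕ) (K : Set E) : Set ℝ :=
  {r | ∃ L : AffineSubspace ℝ E, ∃ _ : Nonempty L, finrank ℝ L.direction = i ∧
    ((L : Set E) ∩ K).Nonempty ∧ r = (volume (reflHull L K)).toReal / (volume K).toReal}

/-- the constant `c_i(K)` -/
noncomputable def cRatio [MeasurableSpace E] [BorelSpace E] (i : ℕ) (K : Set E) : ℝ :=
  sSup (ratios i K)

end defs

/-- The quotients are bounded, so that their supremum is meaningful. -/
lemma bddAbove_ratios {d : ℕ} (i : ℕ) {K : Set (EuclideanSpace ℝ (Fin d))} (hK : IsCompact K) :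
    BddAbove (ratios i K) := by
  obtain ⟨R, hR⟩ := hK.isBounded.subset_closedBall 0
  refine ⟨(volume (closedBall (0 : EuclideanSpace ℝ (Fin d)) (3 * R))).toReal / (volume K).toReal, ?_⟩
  rintro _ ⟨L, hLne, -, ⟨p, hpL, hpK⟩, rfl⟩
  have hsub : reflHull L K ⊆ closedBall 0 (3 * R) := by
    refine convexHull_min ?_ (convex_closedBall _ _)
    have hp := hR hpK
    rw [mem_closedBall_zero_iff] at hp
    have hR0 : 0 ≤ R := (norm_nonneg _).trans hp
    rintro z (hz | ⟨z, hz, rfl⟩)
    · have := hR hz
      rw [mem_closedBall_zero_iff] at this ⊢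
      linarith
    · have h1 := hR hz
      rw [mem_closedBall_zero_iff] at h1 ⊢
      show ‖EuclideanGeometry.reflection L z‖ ≤ 3 * R
      have h2 : dist (EuclideanGeometry.reflection L z) p = dist z p := by
        have h3 : EuclideanGeometry.reflection L p = p :=
          (EuclideanGeometry.reflection_eq_self_iff p).2 hpL
        conv_lhs => rw [← h3]
        exact (EuclideanGeometry.reflection L).dist_map z p
      rw [dist_eq_norm, dist_eq_norm] at h2
      have h4 : ‖EuclideanGeometry.reflection L z‖ ≤ ‖EuclideanGeometry.reflection L z - p‖ + ‖p‖ := by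
        have := norm_add_le (EuclideanGeometry.reflection L z - p) p
        rwa [sub_add_cancel] at this
      have h5 : ‖z - p‖ ≤ ‖z‖ + ‖p‖ := norm_sub_le _ _
      linarith
  gcongr
  · exact (isCompact_closedBall _ _).measure_lt_top.ne

lemma kappa_pos (n : ℕ) : 0 < kappa n := by
  unfold kappa
  apply ENNReal.toReal_pos
  · exact (measure_closedBall_pos _ _ one_pos).ne'
  · exact (isCompact_closedBall _ _).measure_lt_top.ne

/-- For every convex body `K` in `d`-dimensional Euclidean space and every `i ≤ d - 1` there is an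
`i`-dimensional affine subspace `L` meeting `K` with
`vol (conv (K ∪ σ_L K)) ≥ (1 + 2 κ_{d-1} / κ_d) vol K`; in particular
`c_i(K) ≥ 1 + 2 κ_{d-1} / κ_d`. -/
theorem result (d i : ℕ) (hi : i < d) (K : Set (EuclideanSpace ℝ (Fin d)))
    (hconv : Convex ℝ K) (hcomp : IsCompact K) (hint : (interior K).Nonempty) :
    BddAbove (ratios i K) ∧
    (∃ r ∈ ratios i K, 1 + 2 * kappa (d - 1) / kappa d ≤ r) ∧
    1 + 2 * kappa (d - 1) / kappa d ≤ cRatio i K := by
  obtain ⟨m, rfl⟩ : ∃ m, d = m + 1 := ⟨d - 1, by omega⟩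
  have hv : volume K ≠ 0 := (isOpen_interior.measure_pos volume hint).trans_le
    (measure_mono interior_subset) |>.ne'
  have hvt : volume K ≠ ∞ := hcomp.measure_lt_top.ne
  obtain ⟨x, hx, t, hxt, h1⟩ := trans_ineq hcomp hconv hv
  obtain ⟨L, hLne, hL1, hL2, hL3⟩ := refl_ineq hcomp hconv hx hxt (i := i) (by omega)
  have hk1 : kap (m + 1) ≠ ∞ := (isCompact_closedBall _ _).measure_lt_top.ne
  have hk2 : kap m ≠ ∞ := (isCompact_closedBall _ _).measure_lt_top.ne
  set W := volume (convexHull ℝ (K ∪ EuclideanGeometry.reflection L '' K)) with hW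
  have hWt : W ≠ ∞ := by
    have hc : IsCompact (EuclideanGeometry.reflection L '' K) :=
      hcomp.image (EuclideanGeometry.reflection L).continuous
    have hb : Bornology.IsBounded (convexHull ℝ (K ∪ EuclideanGeometry.reflection L '' K)) :=
      (isBounded_convexHull).2 (hcomp.union hc).isBounded
    exact hb.measure_lt_top.ne
  have h2 : (kap (m + 1) + 2 * kap m) * volume K ≤ kap (m + 1) * W :=
    h1.trans (by gcongr)
  have h3 := ENNReal.toReal_mono (ENNReal.mul_ne_top hk1 hWt) h2
  rw [ENNReal.toReal_mul, ENNReal.toReal_mul, ENNReal.toReal_add hk1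
    (ENNReal.mul_ne_top (by norm_num) hk2), ENNReal.toReal_mul, ENNReal.toReal_ofNat] at h3
  have e1 : (kap (m + 1)).toReal = kappa (m + 1) := rfl
  have e2 : (kap m).toReal = kappa m := rfl
  rw [e1, e2] at h3
  have hpos := kappa_pos (m + 1)
  have hvpos : 0 < (volume K).toReal := ENNReal.toReal_pos hv hvt
  have h4 : 1 + 2 * kappa (m + 1 - 1) / kappa (m + 1) ≤ W.toReal / (volume K).toReal := by
    rw [Nat.add_sub_cancel, le_div_iff₀ hvpos]
    have h5 : (1 + 2 * kappa m / kappa (m + 1)) * (volume K).toReal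
        = ((kappa (m + 1) + 2 * kappa m) * (volume K).toReal) / kappa (m + 1) := by
      field_simp
    rw [h5, div_le_iff₀ hpos]
    linarith
  have hmem : W.toReal / (volume K).toReal ∈ ratios i K := ⟨L, hLne, hL1, hL2, rfl⟩
  exact ⟨bddAbove_ratios i hcomp, ⟨_, hmem, h4⟩, h4.trans (le_csSup (bddAbove_ratios i hcomp) hmem)⟩

end Pool.Agent.Results.MP_036dc9_gt.ReflectionHull
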